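import Pool.Agent.Lib.TP.Basic

/-! Closed spans of elementary tensors `a ⊗ T` and compression by an isometry. -/

set_option linter.unusedSectionVars false
set_option maxHeartbeats 400000

noncomputable section

open BCO ContinuousLinearMap
open scoped InnerProductSpace

namespace Pool.Agent.Lib.TP

variable {I J K : Type} {H H₁ H₂ H₃ : Type} [NormedAddCommGroup H] [InnerProductSpace ℝ H]
  [NormedAddCommGroup H₁] [InnerProductSpace ℝ H₁] [NormedAddCommGroup H₂] [InnerProductSpace ℝ H₂]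
  [NormedAddCommGroup H₃] [InnerProductSpace ℝ H₃]
  [CompleteSpace H] [CompleteSpace H₁] [CompleteSpace H₂] [CompleteSpace H₃]

/-- the adjoint of a compact operator is compact -/
theorem compact_adjoint {T : H₁ →L[ℝ] H₂} (hT : IsCompactOperator T) :
    IsCompactOperator (adjoint T) := by
  have hK : IsCompactOperator (T.comp (adjoint T)) := hT.comp_clm (adjoint T)
  have tb : TotallyBounded ((T.comp (adjoint T)) '' Metric.ball 0 1) :=
    (IsCompactOperator.isCompact_closure_image_ball (f := (T.comp (adjoint T)).toLinearMap)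
      hK 1).totallyBounded.subset subset_closure
  refine (isCompactOperator_iff_isCompact_closure_image_ball (adjoint T).toLinearMap
    one_pos).2 ?_
  refine (TotallyBounded.closure ?_).isCompact_of_isClosed isClosed_closure
  rw [Metric.totallyBounded_iff]
  intro ε hε
  obtain ⟨t, hts, htf, hc⟩ := Metric.finite_approx_of_totallyBounded tb (ε ^ 2 / 2) (by positivity)
  have hts' : ∀ y ∈ t, ∃ x ∈ Metric.ball (0 : H₂) 1, (T.comp (adjoint T)) x = y := fun y hy => hts hy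
  choose! u hu hu' using hts'
  refine ⟨(fun y => adjoint T (u y)) '' t, htf.image _, ?_⟩
  rintro _ ⟨x, hx, rfl⟩
  obtain ⟨y, hy, h⟩ := Set.mem_iUnion₂.1 (hc ⟨x, hx, rfl⟩)
  refine Set.mem_iUnion₂.2 ⟨_, ⟨y, hy, rfl⟩, ?_⟩
  rw [← hu' y hy] at h
  have hx1 := mem_ball_zero_iff.1 hx
  have hu1 := mem_ball_zero_iff.1 (hu y hy)
  rw [Metric.mem_ball, dist_eq_norm, ← map_sub] at h
  change dist (adjoint T x) (adjoint T (u y)) < ε
  rw [dist_eq_norm, ← map_sub]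
  have h2 : ‖x - u y‖ ≤ 2 := (norm_sub_le _ _).trans (by linarith)
  have h3 : ‖adjoint T (x - u y)‖ ^ 2 = ⟪x - u y, (T.comp (adjoint T)) (x - u y)⟫_ℝ := by
    rw [comp_apply, ← adjoint_inner_left, real_inner_self_eq_norm_sq]
  have h4 := real_inner_le_norm (x - u y) ((T.comp (adjoint T)) (x - u y))
  have h5 : ‖adjoint T (x - u y)‖ ^ 2 < ε ^ 2 := by
    have := norm_nonneg ((T.comp (adjoint T)) (x - u y))
    nlinarith
  exact lt_of_pow_lt_pow_left₀ 2 hε.le h5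

/-- induction over a closed span -/
theorem cs_ind {E : Type} [AddCommGroup E] [Module ℝ E] [TopologicalSpace E] [ContinuousAdd E]
    [ContinuousConstSMul ℝ E] {A : Set E} {p : E → Prop}
    (hc : IsClosed {S | p S}) (h0 : p 0) (ha : ∀ S S', p S → p S' → p (S + S'))
    (hs : ∀ (c : ℝ) S, p S → p (c • S)) (h : ∀ S ∈ A, p S) {S : E}
    (hS : S ∈ (Submodule.span ℝ A).topologicalClosure) : p S :=
  Submodule.topologicalClosure_minimal _
    (t := ⟨⟨⟨{S | p S}, fun {a b} => ha a b⟩, h0⟩, fun c _ => hs c _⟩)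
    (Submodule.span_le.2 h) hc hS

/-- a continuous linear map sends a closed span into a closed subspace -/
theorem cs_map {E F : Type} [AddCommGroup E] [Module ℝ E] [TopologicalSpace E] [ContinuousAdd E]
    [ContinuousConstSMul ℝ E] [AddCommGroup F] [Module ℝ F] [TopologicalSpace F] {A : Set E} {Q : Submodule ℝ F} (L : E → F) (hL : Continuous L)
    (ha : ∀ S S', L (S + S') = L S + L S') (hs : ∀ (c : ℝ) S, L (c • S) = c • L S)
    (hQ : IsClosed (Q : Set F)) (h : ∀ S ∈ A, L S ∈ Q) {S : E}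
    (hS : S ∈ (Submodule.span ℝ A).topologicalClosure) : L S ∈ Q := by
  refine cs_ind (p := fun S => L S ∈ Q) (hQ.preimage hL) ?_ (fun S S' h h' => ?_)
    (fun c S h => ?_) h hS
  · have := hs 0 0
    simp only [zero_smul] at this
    simp only [this, Q.zero_mem]
  · simp only [ha]; exact Q.add_mem h h'
  · simp only [hs]; exact Q.smul_mem c h

theorem cs_adjoint {A : Set (H₁ →L[ℝ] H₂)} {Q : Submodule ℝ (H₂ →L[ℝ] H₁)}
    (hQ : IsClosed (Q : Set (H₂ →L[ℝ] H₁))) (h : ∀ S ∈ A, adjoint S ∈ Q) {S : H₁ →L[ℝ] H₂}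
    (hS : S ∈ (Submodule.span ℝ A).topologicalClosure) : adjoint S ∈ Q :=
  cs_map (fun S => adjoint S) (adjoint (𝕜 := ℝ) (E := H₁) (F := H₂)).continuous
    (fun _ _ => map_add _ _ _) (fun _ _ => by simp) hQ h hS

/-- the operator `a ⊗ T` -/
def ten (a : V I ℝ →L[ℝ] V J ℝ) (T : H₁ →L[ℝ] H₂) : V I H₁ →L[ℝ] V J H₂ :=
  (amp J T).comp (ampl H₁ a)

theorem ten_eq (a : V I ℝ →L[ℝ] V J ℝ) (T : H₁ →L[ℝ] H₂) :
    ten a T = (ampl H₂ a).comp (amp I T) := amp_comp_ampl T a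

theorem ten_tens (a : V I ℝ →L[ℝ] V J ℝ) (T : H₁ →L[ℝ] H₂) (x : V I ℝ) (u : H₁) :
    ten a T (tens x u) = tens (a x) (T u) := by
  rw [ten, comp_apply, ampl_tens, amp_tens]

theorem ten_comp (a : V J ℝ →L[ℝ] V K ℝ) (b : V I ℝ →L[ℝ] V J ℝ) (S : H₂ →L[ℝ] H₃)
    (T : H₁ →L[ℝ] H₂) : (ten a S).comp (ten b T) = ten (a.comp b) (S.comp T) :=
  tens_ext fun i u => by simp only [comp_apply, ten_tens]

theorem ten_mul (a b : V I ℝ →L[ℝ] V I ℝ) (S T : H →L[ℝ] H) :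
    ten a S * ten b T = ten (a * b) (S * T) := ten_comp a b S T

theorem ten_id_right (a : V I ℝ →L[ℝ] V J ℝ) :
    ten a (ContinuousLinearMap.id ℝ H) = ampl H a := op_ext' fun _ _ => rfl

theorem ten_one_right (a : V I ℝ →L[ℝ] V J ℝ) : ten a (1 : H →L[ℝ] H) = ampl H a := ten_id_right a

theorem ten_id_left (T : H₁ →L[ℝ] H₂) : ten (ContinuousLinearMap.id ℝ (V I ℝ)) T = amp I T := by
  rw [ten, ampl_id, comp_id]

theorem ten_one_left (T : H₁ →L[ℝ] H₂) : ten (1 : V I ℝ →L[ℝ] V I ℝ) T = amp I T := ten_id_left T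

theorem ten_lam {G : Type} [Group G] (g : G) (T : H₁ →L[ℝ] H₂) : ten (lam g) T = tw g T := by
  rw [ten, ampl_lam, tw]

theorem adjoint_ten (a : V I ℝ →L[ℝ] V J ℝ) (T : H₁ →L[ℝ] H₂) :
    adjoint (ten a T) = ten (adjoint a) (adjoint T) := by
  rw [ten, adjoint_comp, adjoint_amp, adjoint_ampl, ten_eq]

theorem norm_amp_le' (T : H₁ →L[ℝ] H₂) : ‖amp I T‖ ≤ ‖T‖ := lp.norm_mapCLM_le _ _ _ _

theorem norm_ten_le (a : V I ℝ →L[ℝ] V J ℝ) (T : H₁ →L[ℝ] H₂) : ‖ten a T‖ ≤ ‖a‖ * ‖T‖ := by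
  refine (opNorm_comp_le _ _).trans ?_
  rw [mul_comm]
  exact mul_le_mul (norm_ampl_le a) (norm_amp_le' T) (norm_nonneg _) (norm_nonneg _)

theorem ten_add_left (a b : V I ℝ →L[ℝ] V J ℝ) (T : H₁ →L[ℝ] H₂) :
    ten (a + b) T = ten a T + ten b T := by rw [ten, ampl_add, comp_add, ten, ten]

theorem ten_smul_left (c : ℝ) (a : V I ℝ →L[ℝ] V J ℝ) (T : H₁ →L[ℝ] H₂) :
    ten (c • a) T = c • ten a T := by rw [ten, ampl_smul, comp_smul, ten]

theorem ten_add_right (a : V I ℝ →L[ℝ] V J ℝ) (S T : H₁ →L[ℝ] H₂) :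
    ten a (S + T) = ten a S + ten a T := op_ext' fun _ _ => rfl

theorem ten_smul_right (c : ℝ) (a : V I ℝ →L[ℝ] V J ℝ) (T : H₁ →L[ℝ] H₂) :
    ten a (c • T) = c • ten a T := op_ext' fun _ _ => rfl

/-- `T ↦ a ⊗ T` as a linear map -/
def tenL (a : V I ℝ →L[ℝ] V J ℝ) : (H₁ →L[ℝ] H₂) →ₗ[ℝ] V I H₁ →L[ℝ] V J H₂ where
  toFun := ten a
  map_add' := ten_add_right a
  map_smul' c T := ten_smul_right c a T

@[simp] theorem tenL_apply (a : V I ℝ →L[ℝ] V J ℝ) (T : H₁ →L[ℝ] H₂) : tenL a T = ten a T := rfl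

theorem ten_sub_right (a : V I ℝ →L[ℝ] V J ℝ) (S T : H₁ →L[ℝ] H₂) :
    ten a (S - T) = ten a S - ten a T := map_sub (tenL a) S T

theorem ten_neg_right (a : V I ℝ →L[ℝ] V J ℝ) (T : H₁ →L[ℝ] H₂) : ten a (-T) = -ten a T :=
  map_neg (tenL a) T

@[simp] theorem ten_zero_right (a : V I ℝ →L[ℝ] V J ℝ) : ten a (0 : H₁ →L[ℝ] H₂) = 0 :=
  map_zero (tenL a)

@[simp] theorem ten_zero_left (T : H₁ →L[ℝ] H₂) : ten (0 : V I ℝ →L[ℝ] V J ℝ) T = 0 := by
  rw [ten, ampl_zero, comp_zero]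

theorem ten_sum_right {ι : Type*} (s : Finset ι) (a : V I ℝ →L[ℝ] V J ℝ) (T : ι → H₁ →L[ℝ] H₂) :
    ten a (∑ k ∈ s, T k) = ∑ k ∈ s, ten a (T k) := map_sum (tenL a) T s

theorem continuous_ten_left (T : H₁ →L[ℝ] H₂) :
    Continuous fun a : V I ℝ →L[ℝ] V J ℝ => ten a T :=
  (continuous_const (y := amp J T)).clm_comp continuous_ampl

theorem continuous_ten_right (a : V I ℝ →L[ℝ] V J ℝ) :
    Continuous fun T : H₁ →L[ℝ] H₂ => ten a T :=
  AddMonoidHomClass.continuous_of_bound (tenL (H₁ := H₁) (H₂ := H₂) a) ‖a‖ (norm_ten_le a)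

/-- the closed span of the operators `a ⊗ T`, `a` in `A`, `T` in `P` -/
def TT (A : Set (V I ℝ →L[ℝ] V J ℝ)) (P : Set (H₁ →L[ℝ] H₂)) : Submodule ℝ (V I H₁ →L[ℝ] V J H₂) :=
  (Submodule.span ℝ {S | ∃ a ∈ A, ∃ T ∈ P, S = ten a T}).topologicalClosure

variable {A : Set (V I ℝ →L[ℝ] V J ℝ)} {P : Set (H₁ →L[ℝ] H₂)}

theorem isClosed_TT : IsClosed (TT A P : Set (V I H₁ →L[ℝ] V J H₂)) :=
  Submodule.isClosed_topologicalClosure _

theorem ten_mem {a : V I ℝ →L[ℝ] V J ℝ} {T : H₁ →L[ℝ] H₂} (ha : a ∈ A) (hT : T ∈ P) :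
    ten a T ∈ TT A P :=
  Submodule.le_topologicalClosure _ (Submodule.subset_span ⟨a, ha, T, hT, rfl⟩)

theorem TT_ind {p : (V I H₁ →L[ℝ] V J H₂) → Prop} (hc : IsClosed {S | p S}) (h0 : p 0)
    (ha : ∀ S S', p S → p S' → p (S + S')) (hs : ∀ (c : ℝ) S, p S → p (c • S))
    (h : ∀ a ∈ A, ∀ T ∈ P, p (ten a T)) {S : V I H₁ →L[ℝ] V J H₂} (hS : S ∈ TT A P) : p S :=
  cs_ind hc h0 ha hs (by rintro _ ⟨a, h1, T, h2, rfl⟩; exact h a h1 T h2) hS

theorem TT_map {F : Type} [AddCommGroup F] [Module ℝ F] [TopologicalSpace F] {Q : Submodule ℝ F}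
    (L : (V I H₁ →L[ℝ] V J H₂) → F) (hL : Continuous L)
    (ha : ∀ S S', L (S + S') = L S + L S') (hs : ∀ (c : ℝ) S, L (c • S) = c • L S)
    (hQ : IsClosed (Q : Set F)) (h : ∀ a ∈ A, ∀ T ∈ P, L (ten a T) ∈ Q)
    {S : V I H₁ →L[ℝ] V J H₂} (hS : S ∈ TT A P) : L S ∈ Q :=
  cs_map L hL ha hs hQ (by rintro _ ⟨a, h1, T, h2, rfl⟩; exact h a h1 T h2) hS

theorem TT_le {Q : Submodule ℝ (V I H₁ →L[ℝ] V J H₂)}
    (hQ : IsClosed (Q : Set (V I H₁ →L[ℝ] V J H₂))) (h : ∀ a ∈ A, ∀ T ∈ P, ten a T ∈ Q) :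
    TT A P ≤ Q := fun _ hS =>
  TT_map id continuous_id (fun _ _ => rfl) (fun _ _ => rfl) hQ h hS

theorem TT_mono {A' : Set (V I ℝ →L[ℝ] V J ℝ)} {P' : Set (H₁ →L[ℝ] H₂)} (h : A ⊆ A')
    (h' : P ⊆ P') : TT A P ≤ TT A' P' :=
  TT_le isClosed_TT fun _ ha _ hT => ten_mem (h ha) (h' hT)

/-- the first factor may be taken in the closed span -/
theorem ten_mem_of_closure {a : V I ℝ →L[ℝ] V J ℝ} {T : H₁ →L[ℝ] H₂}
    (ha : a ∈ (Submodule.span ℝ A).topologicalClosure) (hT : T ∈ P) : ten a T ∈ TT A P :=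
  cs_map (fun a => ten a T) (continuous_ten_left T) (fun _ _ => ten_add_left _ _ _)
    (fun _ _ => ten_smul_left _ _ _) isClosed_TT (fun _ h => ten_mem h hT) ha

theorem TT_comp {A' : Set (V J ℝ →L[ℝ] V K ℝ)} {P' : Set (H₂ →L[ℝ] H₃)}
    {A'' : Set (V I ℝ →L[ℝ] V K ℝ)} {P'' : Set (H₁ →L[ℝ] H₃)}
    (hA : ∀ a' ∈ A', ∀ a ∈ A, a'.comp a ∈ A'') (hP : ∀ T' ∈ P', ∀ T ∈ P, T'.comp T ∈ P'')
    {S' : V J H₂ →L[ℝ] V K H₃} {S : V I H₁ →L[ℝ] V J H₂} (hS' : S' ∈ TT A' P') (hS : S ∈ TT A P) :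
    S'.comp S ∈ TT A'' P'' := by
  refine TT_map (fun S' => S'.comp S) (by fun_prop) (fun _ _ => add_comp _ _ _)
    (fun _ _ => smul_comp _ _ _) isClosed_TT (fun a' ha' T' hT' => ?_) hS'
  refine TT_map (fun S => (ten a' T').comp S) (by fun_prop) (fun _ _ => comp_add _ _ _)
    (fun _ _ => comp_smul _ _ _) isClosed_TT (fun a ha T hT => ?_) hS
  simp only [ten_comp]
  exact ten_mem (hA _ ha' _ ha) (hP _ hT' _ hT)

theorem TT_adjoint {A' : Set (V J ℝ →L[ℝ] V I ℝ)} {P' : Set (H₂ →L[ℝ] H₁)}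
    (hA : ∀ a ∈ A, adjoint a ∈ A') (hP : ∀ T ∈ P, adjoint T ∈ P')
    {S : V I H₁ →L[ℝ] V J H₂} (hS : S ∈ TT A P) : adjoint S ∈ TT A' P' := by
  refine cs_adjoint isClosed_TT ?_ hS
  rintro _ ⟨a, ha, T, hT, rfl⟩
  rw [adjoint_ten]
  exact ten_mem (hA a ha) (hP T hT)

theorem TT_lam {G : Type} [Group G] (P : Set (H₁ →L[ℝ] H₂)) :
    TT (Set.range (lam : G → V G ℝ →L[ℝ] V G ℝ)) P =
      (Submodule.span ℝ {S | ∃ (g : G) (T : H₁ →L[ℝ] H₂), T ∈ P ∧ S = tw g T}).topologicalClosure := by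
  unfold TT
  congr 2
  ext S
  constructor
  · rintro ⟨_, ⟨g, rfl⟩, T, hT, rfl⟩
    exact ⟨g, T, hT, ten_lam g T⟩
  · rintro ⟨g, T, hT, rfl⟩
    exact ⟨_, ⟨g, rfl⟩, T, hT, (ten_lam g T).symm⟩

theorem TT_lam_univ {G : Type} [Group G] :
    TT (Set.range (lam : G → V G ℝ →L[ℝ] V G ℝ)) (Set.univ : Set (H₁ →L[ℝ] H₂)) = RR G H₁ H₂ := by
  rw [TT_lam, RR]
  simp

theorem adjoint_lam {G : Type} [Group G] (g : G) :
    adjoint (lam g : V G H →L[ℝ] V G H) = lam g⁻¹ := by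
  symm
  rw [eq_adjoint_iff]
  intro η ξ
  rw [lp.inner_eq_tsum, lp.inner_eq_tsum, ← (Equiv.mulLeft g).tsum_eq
    (fun i => ⟪η i, (lam g ξ) i⟫_ℝ)]
  exact tsum_congr fun x => by simp

theorem adjoint_tw {G : Type} [Group G] (g : G) (T : H₁ →L[ℝ] H₂) :
    adjoint (tw g T) = tw g⁻¹ (adjoint T) := by
  rw [← ten_lam, adjoint_ten, adjoint_lam, ten_lam]

theorem RR_adjoint {G : Type} [Group G] {S : V G H₁ →L[ℝ] V G H₂} (hS : S ∈ RR G H₁ H₂) :
    adjoint S ∈ RR G H₂ H₁ := by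
  refine cs_adjoint isClosed_RR ?_ hS
  rintro _ ⟨g, T, rfl⟩
  rw [adjoint_tw]
  exact tw_mem _ _

/-- `C*_r G = RR G ℝ ℝ` is the closed span of the translations -/
theorem RR_real {G : Type} [Group G] : RR G ℝ ℝ =
    (Submodule.span ℝ (Set.range (lam : G → V G ℝ →L[ℝ] V G ℝ))).topologicalClosure := by
  refine le_antisymm (Submodule.topologicalClosure_minimal _ (Submodule.span_le.2 ?_)
    (Submodule.isClosed_topologicalClosure _)) (Submodule.topologicalClosure_minimal _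
    (Submodule.span_le.2 ?_) isClosed_RR)
  · rintro _ ⟨g, T, rfl⟩
    have : tw g T = T 1 • lam g := op_ext fun ξ x => by
      have := T.map_smul (ξ (g⁻¹ * x)) 1
      simpa [mul_comm] using this
    rw [this]
    exact Submodule.smul_mem _ _
      (Submodule.le_topologicalClosure _ (Submodule.subset_span ⟨g, rfl⟩))
  · rintro _ ⟨g, rfl⟩
    rw [← tw_id]
    exact tw_mem _ _

theorem ten_mem_RR {G : Type} [Group G] {a : V G ℝ →L[ℝ] V G ℝ} (ha : a ∈ RR G ℝ ℝ)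
    (T : H₁ →L[ℝ] H₂) : ten a T ∈ RR G H₁ H₂ := by
  rw [← TT_lam_univ]
  rw [RR_real] at ha
  exact ten_mem_of_closure ha (Set.mem_univ _)

/-! ### compression -/

/-- the compression `(j ⊗ 1)* S (j ⊗ 1)` -/
def cp (j : V I ℝ →L[ℝ] V J ℝ) (S : V J H₁ →L[ℝ] V J H₂) : V I H₁ →L[ℝ] V I H₂ :=
  (ampl H₂ (adjoint j)).comp (S.comp (ampl H₁ j))

variable {j : V I ℝ →L[ℝ] V J ℝ}

theorem cp_add (S S' : V J H₁ →L[ℝ] V J H₂) : cp j (S + S') = cp j S + cp j S' := by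
  simp only [cp, add_comp, comp_add]

theorem cp_sub (S S' : V J H₁ →L[ℝ] V J H₂) : cp j (S - S') = cp j S - cp j S' := by
  simp only [cp, sub_comp, comp_sub]

theorem cp_smul (c : ℝ) (S : V J H₁ →L[ℝ] V J H₂) : cp j (c • S) = c • cp j S := by
  simp only [cp, smul_comp, comp_smul]

@[simp] theorem cp_zero : cp j (0 : V J H₁ →L[ℝ] V J H₂) = 0 := by
  simp only [cp, zero_comp, comp_zero]

theorem cp_sum {ι : Type*} (s : Finset ι) (S : ι → V J H₁ →L[ℝ] V J H₂) :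
    cp j (∑ k ∈ s, S k) = ∑ k ∈ s, cp j (S k) := by
  classical
  induction s using Finset.induction_on with
  | empty => simp
  | insert a s h ih => rw [Finset.sum_insert h, Finset.sum_insert h, cp_add, ih]

theorem continuous_cp : Continuous (cp j : (V J H₁ →L[ℝ] V J H₂) → _) := by
  unfold cp
  fun_prop

theorem cp_ten (a : V J ℝ →L[ℝ] V J ℝ) (T : H₁ →L[ℝ] H₂) :
    cp j (ten a T) = ten ((adjoint j).comp (a.comp j)) T := by
  rw [cp, ← ten_id_right, ← ten_id_right, ten_comp, ten_comp, comp_id, id_comp]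

theorem adjoint_cp (S : V J H₁ →L[ℝ] V J H₂) : adjoint (cp j S) = cp j (adjoint S) := by
  rw [cp, adjoint_comp, adjoint_comp, adjoint_ampl, adjoint_ampl, adjoint_adjoint, cp, comp_assoc]

theorem ampl_iso (hj : (adjoint j).comp j = ContinuousLinearMap.id ℝ _) :
    (ampl H (adjoint j)).comp (ampl H j) = ContinuousLinearMap.id ℝ _ := by
  rw [← ampl_comp, hj, ampl_id]

/-- an intertwined operator is the compression -/
theorem cp_eq (hj : (adjoint j).comp j = ContinuousLinearMap.id ℝ _) {S : V J H₁ →L[ℝ] V J H₂}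
    {S' : V I H₁ →L[ℝ] V I H₂} (h : S.comp (ampl H₁ j) = (ampl H₂ j).comp S') : cp j S = S' := by
  rw [cp, h, ← comp_assoc, ampl_iso hj, id_comp]

theorem cp_amp (hj : (adjoint j).comp j = ContinuousLinearMap.id ℝ _) (T : H₁ →L[ℝ] H₂) :
    cp j (amp J T) = amp I T := cp_eq hj (amp_comp_ampl T j)

theorem cp_one (hj : (adjoint j).comp j = ContinuousLinearMap.id ℝ _) :
    cp j (1 : V J H →L[ℝ] V J H) = 1 := cp_eq hj rfl

variable {A₀ : Set (V J ℝ →L[ℝ] V J ℝ)} {B₀ : Set (V I ℝ →L[ℝ] V I ℝ)}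

theorem cp_ten_of (hj : (adjoint j).comp j = ContinuousLinearMap.id ℝ _)
    {a : V J ℝ →L[ℝ] V J ℝ} {b : V I ℝ →L[ℝ] V I ℝ} (h : a.comp j = j.comp b) (T : H₁ →L[ℝ] H₂) :
    cp j (ten a T) = ten b T := by
  rw [cp_ten, h, ← comp_assoc, hj, id_comp]

/-- the range of `j ⊗ 1` is invariant -/
theorem comp_ampl_eq (hj : (adjoint j).comp j = ContinuousLinearMap.id ℝ _)
    (hA : ∀ a ∈ A₀, ∃ b : V I ℝ →L[ℝ] V I ℝ, a.comp j = j.comp b) {S : V J H₁ →L[ℝ] V J H₂} (hS : S ∈ TT A₀ P) :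
    S.comp (ampl H₁ j) = (ampl H₂ j).comp (cp j S) := by
  refine TT_ind (p := fun S => S.comp (ampl H₁ j) = (ampl H₂ j).comp (cp j S))
    (isClosed_eq (by fun_prop) (continuous_const.clm_comp continuous_cp)) (by simp)
    (fun S S' h h' => ?_) (fun c S h => ?_) (fun a ha T _ => ?_) hS
  · rw [add_comp, cp_add, comp_add, h, h']
  · rw [smul_comp, cp_smul, comp_smul, h]
  · obtain ⟨b, hb⟩ := hA a ha
    rw [cp_ten_of hj hb, ← ten_id_right, ← ten_id_right, ten_comp, ten_comp, hb, comp_id, id_comp]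

theorem cp_mem (hj : (adjoint j).comp j = ContinuousLinearMap.id ℝ _)
    (hA : ∀ a ∈ A₀, ∃ b ∈ B₀, a.comp j = j.comp b) {S : V J H₁ →L[ℝ] V J H₂} (hS : S ∈ TT A₀ P) :
    cp j S ∈ TT B₀ P := by
  refine TT_map (cp j) continuous_cp cp_add cp_smul isClosed_TT (fun a ha T hT => ?_) hS
  obtain ⟨b, hb, h⟩ := hA a ha
  rw [cp_ten_of hj h]
  exact ten_mem hb hT

theorem cp_comp (hj : (adjoint j).comp j = ContinuousLinearMap.id ℝ _)
    (hA : ∀ a ∈ A₀, ∃ b : V I ℝ →L[ℝ] V I ℝ, a.comp j = j.comp b) (S' : V J H₂ →L[ℝ] V J H₃)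
    {S : V J H₁ →L[ℝ] V J H₂} (hS : S ∈ TT A₀ P) :
    cp j (S'.comp S) = (cp j S').comp (cp j S) := by
  conv_lhs => rw [cp, comp_assoc, comp_ampl_eq hj hA hS]
  rfl

theorem cp_mul (hj : (adjoint j).comp j = ContinuousLinearMap.id ℝ _)
    (hA : ∀ a ∈ A₀, ∃ b : V I ℝ →L[ℝ] V I ℝ, a.comp j = j.comp b) {P : Set (H →L[ℝ] H)} (S' : V J H →L[ℝ] V J H)
    {S : V J H →L[ℝ] V J H} (hS : S ∈ TT A₀ P) : cp j (S' * S) = cp j S' * cp j S :=
  cp_comp hj hA S' hS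

theorem adjoint_comp_of_isometry {E F : Type} [NormedAddCommGroup E] [InnerProductSpace ℝ E]
    [CompleteSpace E] [NormedAddCommGroup F] [InnerProductSpace ℝ F] [CompleteSpace F]
    (j : E →ₗᵢ[ℝ] F) : (adjoint j.toContinuousLinearMap).comp j.toContinuousLinearMap =
      ContinuousLinearMap.id ℝ E :=
  ContinuousLinearMap.ext fun x => ext_inner_left ℝ fun y => by
    simp

end Pool.Agent.Lib.TP
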