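import Pool.Agent.Lib.BCH.Op24

/-! The amplification `a ⊗ 1` on `l2 (I; H)` of an operator `a` on `l2 (I)`. -/

set_option linter.unusedSectionVars false

set_option maxHeartbeats 400000

noncomputable section

open BCO ContinuousLinearMap
open scoped InnerProductSpace

namespace Pool.Agent.Lib.TP

variable {I J K : Type} {H H₁ H₂ : Type} [NormedAddCommGroup H] [InnerProductSpace ℝ H]
  [NormedAddCommGroup H₁] [InnerProductSpace ℝ H₁] [NormedAddCommGroup H₂] [InnerProductSpace ℝ H₂]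

theorem sum_sq_le {E : Type} [NormedAddCommGroup E] (ξ : V I E) (s : Finset I) :
    ∑ i ∈ s, ‖ξ i‖ ^ 2 ≤ ‖ξ‖ ^ 2 := by
  have := lp.sum_rpow_le_norm_rpow (p := 2) (by norm_num) ξ s
  simpa using this

theorem norm_le_of_sum_sq {E : Type} [NormedAddCommGroup E] {ξ : V I E} {C : ℝ} (hC : 0 ≤ C)
    (h : ∀ s : Finset I, ∑ i ∈ s, ‖ξ i‖ ^ 2 ≤ C ^ 2) : ‖ξ‖ ≤ C :=
  lp.norm_le_of_forall_sum_le (p := 2) (by norm_num) hC (by simpa using h)

theorem mem_of_sum_sq {E : Type} [NormedAddCommGroup E] {f : I → E} {C : ℝ}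
    (h : ∀ s : Finset I, ∑ i ∈ s, ‖f i‖ ^ 2 ≤ C) : Memℓp f 2 :=
  memℓp_gen' (C := C) (by simpa using h)

theorem hasSum_sq {E : Type} [NormedAddCommGroup E] (ξ : V I E) :
    HasSum (fun i => ‖ξ i‖ ^ 2) (‖ξ‖ ^ 2) := by
  have := lp.hasSum_norm (p := 2) (by norm_num) ξ
  simpa using this

theorem op_ext' {E F : Type} [NormedAddCommGroup E] [NormedSpace ℝ E] [NormedAddCommGroup F]
    [NormedSpace ℝ F] {A B : E →L[ℝ] V J F} (h : ∀ ξ x, A ξ x = B ξ x) : A = B :=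
  ContinuousLinearMap.ext fun ξ => lp.ext (funext (h ξ))

variable (I) in
/-- the coordinates along a vector -/
def ev (h : H) : V I H →L[ℝ] V I ℝ := amp I (innerSL ℝ h)

@[simp] theorem ev_apply (h : H) (ξ : V I H) (i : I) : ev I h ξ i = ⟪h, ξ i⟫_ℝ := rfl

theorem vec_ext {ξ η : V I H} (h : ∀ u, ev I u ξ = ev I u η) : ξ = η :=
  lp.ext (funext fun i => ext_inner_left ℝ fun u => by
    have := congrArg (fun z : V I ℝ => z i) (h u)
    simpa using this)

theorem ev_ext {E : Type} [NormedAddCommGroup E] [NormedSpace ℝ E] {A B : E →L[ℝ] V I H}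
    (h : ∀ u ξ, ev I u (A ξ) = ev I u (B ξ)) : A = B :=
  ContinuousLinearMap.ext fun ξ => vec_ext fun u => h u ξ

/-- Bessel inequality -/
theorem sum_ev_sq_le {ι : Type} [Fintype ι] {b : ι → H} (hb : Orthonormal ℝ b) (ξ : V I H) :
    ∑ k, ‖ev I (b k) ξ‖ ^ 2 ≤ ‖ξ‖ ^ 2 := by
  have h1 : HasSum (fun i => ∑ k, ‖ev I (b k) ξ i‖ ^ 2) (∑ k, ‖ev I (b k) ξ‖ ^ 2) :=
    hasSum_sum fun k _ => hasSum_sq _
  refine hasSum_le (fun i => ?_) h1 (hasSum_sq ξ)
  simpa using hb.sum_inner_products_le (ξ i) (s := Finset.univ)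

open Classical in
/-- the basis vector -/
def dl (i : I) : V I ℝ := lp.single 2 i 1

theorem inner_dl (i : I) (x : V I ℝ) : ⟪dl i, x⟫_ℝ = x i := by
  classical
  unfold dl
  convert lp.inner_single_left (𝕜 := ℝ) i (1 : ℝ) x using 1
  simp

theorem summable_smul [CompleteSpace H] (c : V I ℝ) (ξ : V I H) :
    Summable fun i => c i • ξ i := by
  refine Summable.of_norm ?_
  have := lp.summable_mul (p := 2) (q := 2) (by rw [Real.holderConjugate_iff]; norm_num)
    c (lp.toNorm ξ)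
  refine this.congr fun i => ?_
  simp [norm_smul]

variable [CompleteSpace H] [CompleteSpace H₁] [CompleteSpace H₂]

/-- the coordinates of the amplification -/
def amplFun (a : V I ℝ →L[ℝ] V J ℝ) (ξ : V I H) (j : J) : H := ∑' i, adjoint a (dl j) i • ξ i

theorem inner_amplFun (a : V I ℝ →L[ℝ] V J ℝ) (ξ : V I H) (j : J) (u : H) :
    ⟪u, amplFun a ξ j⟫_ℝ = a (ev I u ξ) j := by
  rw [← inner_dl, ← adjoint_inner_left, lp.inner_eq_tsum, amplFun, ← innerSL_apply_apply ℝ,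
    (innerSL ℝ u).map_tsum (summable_smul _ _)]
  refine tsum_congr fun i => ?_
  simp [mul_comm]

theorem sum_amplFun_le (a : V I ℝ →L[ℝ] V J ℝ) (ξ : V I H) (s : Finset J) :
    ∑ j ∈ s, ‖amplFun a ξ j‖ ^ 2 ≤ (‖a‖ * ‖ξ‖) ^ 2 := by
  classical
  let U : Submodule ℝ H := Submodule.span ℝ ((s.image (amplFun a ξ) : Finset H) : Set H)
  let b := stdOrthonormalBasis ℝ U
  have hb : Orthonormal ℝ fun k => (b k : H) := b.orthonormal.comp_linearIsometry U.subtypeₗᵢ
  have h1 : ∀ j ∈ s, ‖amplFun a ξ j‖ ^ 2 = ∑ k, ‖a (ev I (b k : H) ξ) j‖ ^ 2 := fun j hj => by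
    have hm : amplFun a ξ j ∈ U := Submodule.subset_span (by simpa using ⟨j, hj, rfl⟩)
    have := b.sum_sq_norm_inner_right ⟨_, hm⟩
    simp only [← inner_amplFun]
    rw [← Submodule.coe_norm (⟨_, hm⟩ : U), ← this]
    rfl
  rw [Finset.sum_congr rfl h1, Finset.sum_comm, mul_pow]
  calc ∑ k, ∑ j ∈ s, ‖a (ev I (b k : H) ξ) j‖ ^ 2 ≤ ∑ k, ‖a‖ ^ 2 * ‖ev I (b k : H) ξ‖ ^ 2 := by
        refine Finset.sum_le_sum fun k _ => (sum_sq_le _ _).trans ?_
        rw [← mul_pow]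
        gcongr
        exact a.le_opNorm _
    _ ≤ _ := by
        rw [← Finset.mul_sum]
        gcongr
        exact sum_ev_sq_le hb ξ

variable (H) in
/-- the amplification `a ⊗ 1` -/
def ampl (a : V I ℝ →L[ℝ] V J ℝ) : V I H →L[ℝ] V J H :=
  LinearMap.mkContinuous
    { toFun := fun ξ => ⟨amplFun a ξ, mem_of_sum_sq (sum_amplFun_le a ξ)⟩
      map_add' := fun ξ η => vec_ext fun u => lp.ext (funext fun j => by
        change ⟪u, amplFun a (ξ + η) j⟫_ℝ = ⟪u, amplFun a ξ j + amplFun a η j⟫_ℝ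
        simp [inner_add_right, inner_amplFun])
      map_smul' := fun c ξ => vec_ext fun u => lp.ext (funext fun j => by
        change ⟪u, amplFun a (c • ξ) j⟫_ℝ = ⟪u, c • amplFun a ξ j⟫_ℝ
        simp [inner_smul_right, inner_amplFun]) } ‖a‖
    fun ξ => norm_le_of_sum_sq (by positivity) (sum_amplFun_le a ξ)

/-- the defining property -/
theorem ev_ampl (a : V I ℝ →L[ℝ] V J ℝ) (u : H) (ξ : V I H) :
    ev J u (ampl H a ξ) = a (ev I u ξ) := lp.ext (funext fun j => inner_amplFun a ξ j u)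

theorem inner_ampl_apply (a : V I ℝ →L[ℝ] V J ℝ) (u : H) (ξ : V I H) (j : J) :
    ⟪u, ampl H a ξ j⟫_ℝ = a (ev I u ξ) j := inner_amplFun a ξ j u

theorem norm_ampl_le (a : V I ℝ →L[ℝ] V J ℝ) : ‖ampl H a‖ ≤ ‖a‖ :=
  LinearMap.mkContinuous_norm_le _ (norm_nonneg _) _

theorem ampl_unique {a : V I ℝ →L[ℝ] V J ℝ} {A : V I H →L[ℝ] V J H}
    (h : ∀ u ξ, ev J u (A ξ) = a (ev I u ξ)) : ampl H a = A :=
  ev_ext fun u ξ => by rw [ev_ampl, h]

theorem ampl_comp (a : V J ℝ →L[ℝ] V K ℝ) (b : V I ℝ →L[ℝ] V J ℝ) :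
    ampl H (a.comp b) = (ampl H a).comp (ampl H b) :=
  ampl_unique fun u ξ => by simp only [comp_apply, ev_ampl]

theorem ampl_mul (a b : V I ℝ →L[ℝ] V I ℝ) : ampl H (a * b) = ampl H a * ampl H b := ampl_comp a b

theorem ampl_id : ampl H (ContinuousLinearMap.id ℝ (V I ℝ)) = ContinuousLinearMap.id ℝ (V I H) :=
  ampl_unique fun _ _ => rfl

theorem ampl_one : ampl H (1 : V I ℝ →L[ℝ] V I ℝ) = 1 := ampl_id

variable (H) in
/-- the amplification as a continuous linear map -/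
def amplL : (V I ℝ →L[ℝ] V J ℝ) →L[ℝ] V I H →L[ℝ] V J H :=
  LinearMap.mkContinuous
    { toFun := ampl H
      map_add' := fun a b => ampl_unique fun u ξ => by simp only [add_apply, map_add, ev_ampl]
      map_smul' := fun c a => ampl_unique fun u ξ => by
        simp only [smul_apply, map_smul, ev_ampl, RingHom.id_apply] } 1
    fun a => by rw [one_mul]; exact norm_ampl_le a

@[simp] theorem amplL_apply (a : V I ℝ →L[ℝ] V J ℝ) : amplL H a = ampl H a := rfl

theorem continuous_ampl : Continuous (ampl H : (V I ℝ →L[ℝ] V J ℝ) → _) := (amplL H).continuous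

theorem ampl_add (a b : V I ℝ →L[ℝ] V J ℝ) : ampl H (a + b) = ampl H a + ampl H b :=
  map_add (amplL H) a b

theorem ampl_sub (a b : V I ℝ →L[ℝ] V J ℝ) : ampl H (a - b) = ampl H a - ampl H b :=
  map_sub (amplL H) a b

theorem ampl_neg (a : V I ℝ →L[ℝ] V J ℝ) : ampl H (-a) = -ampl H a := map_neg (amplL H) a

theorem ampl_smul (c : ℝ) (a : V I ℝ →L[ℝ] V J ℝ) : ampl H (c • a) = c • ampl H a :=
  map_smul (amplL H) c a

@[simp] theorem ampl_zero : ampl H (0 : V I ℝ →L[ℝ] V J ℝ) = 0 := map_zero (amplL H)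

theorem ampl_sum {ι : Type*} (s : Finset ι) (a : ι → V I ℝ →L[ℝ] V J ℝ) :
    ampl H (∑ k ∈ s, a k) = ∑ k ∈ s, ampl H (a k) := map_sum (amplL H) a s

variable (H I) in
/-- the amplification as an algebra homomorphism -/
def amplA : (V I ℝ →L[ℝ] V I ℝ) →ₐ[ℝ] V I H →L[ℝ] V I H :=
  AlgHom.ofLinearMap (amplL H).toLinearMap ampl_one ampl_mul

@[simp] theorem amplA_apply (a : V I ℝ →L[ℝ] V I ℝ) : amplA I H a = ampl H a := rfl

theorem ev_amp (T : H₁ →L[ℝ] H₂) (u : H₂) (ξ : V I H₁) :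
    ev I u (amp I T ξ) = ev I (adjoint T u) ξ :=
  lp.ext (funext fun i => by simp [adjoint_inner_left])

/-- `1 ⊗ T` commutes with `a ⊗ 1` -/
theorem amp_comp_ampl (T : H₁ →L[ℝ] H₂) (a : V I ℝ →L[ℝ] V J ℝ) :
    (amp J T).comp (ampl H₁ a) = (ampl H₂ a).comp (amp I T) :=
  ev_ext fun u ξ => by simp only [comp_apply, ev_amp, ev_ampl]

theorem amp_ampl (T : H₁ →L[ℝ] H₂) (a : V I ℝ →L[ℝ] V J ℝ) (ξ : V I H₁) :
    amp J T (ampl H₁ a ξ) = ampl H₂ a (amp I T ξ) :=
  congrArg (fun A : V I H₁ →L[ℝ] V J H₂ => A ξ) (amp_comp_ampl T a)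

theorem amp_mul_ampl (T : H →L[ℝ] H) (a : V I ℝ →L[ℝ] V I ℝ) :
    amp I T * ampl H a = ampl H a * amp I T := amp_comp_ampl T a

theorem ev_real (u : ℝ) (x : V I ℝ) : ev I u x = u • x :=
  lp.ext (funext fun i => by simp [mul_comm])

@[simp] theorem ampl_real (a : V I ℝ →L[ℝ] V J ℝ) : ampl ℝ a = a :=
  ampl_unique fun u ξ => by simp only [ev_real, map_smul]

theorem ampl_lam {G : Type} [Group G] (g : G) : ampl H (lam g : V G ℝ →L[ℝ] V G ℝ) = lam g :=
  ampl_unique fun _ _ => rfl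

theorem adjoint_amp (T : H₁ →L[ℝ] H₂) : adjoint (amp I T) = amp I (adjoint T) := by
  symm
  rw [eq_adjoint_iff]
  intro η ξ
  rw [lp.inner_eq_tsum, lp.inner_eq_tsum]
  exact tsum_congr fun x => by simp [adjoint_inner_left]

/-- the elementary tensor `x ⊗ u` -/
def tens (x : V I ℝ) (u : H) : V I H := amp I (toSpanSingleton ℝ u) x

@[simp] theorem tens_apply (x : V I ℝ) (u : H) (i : I) : tens x u i = x i • u := rfl

theorem ampl_tens (a : V I ℝ →L[ℝ] V J ℝ) (x : V I ℝ) (u : H) :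
    ampl H a (tens x u) = tens (a x) u := by
  have := amp_ampl (toSpanSingleton ℝ u) a x
  rw [ampl_real] at this
  exact this.symm

theorem amp_tens (T : H₁ →L[ℝ] H₂) (x : V I ℝ) (u : H₁) : amp I T (tens x u) = tens x (T u) :=
  lp.ext (funext fun i => by simp)

theorem inner_tens (x : V I ℝ) (u : H) (ξ : V I H) : ⟪tens x u, ξ⟫_ℝ = ⟪x, ev I u ξ⟫_ℝ := by
  rw [lp.inner_eq_tsum, lp.inner_eq_tsum]
  exact tsum_congr fun i => by simp [inner_smul_left, mul_comm]

theorem tens_dl [DecidableEq I] (i : I) (u : H) : tens (dl i) u = lp.single 2 i u := by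
  refine lp.ext (funext fun k => ?_)
  by_cases h : k = i
  · subst h; simp [dl]
  · simp [dl, lp.single_apply, h]

/-- operators that agree on elementary tensors are equal -/
theorem tens_ext {F : Type} [NormedAddCommGroup F] [NormedSpace ℝ F] {A B : V I H →L[ℝ] F}
    (h : ∀ i u, A (tens (dl i) u) = B (tens (dl i) u)) : A = B := by
  classical
  refine lp.ext_continuousLinearMap (by norm_num) fun i => ContinuousLinearMap.ext fun u => ?_
  simpa only [comp_apply, lp.singleContinuousLinearMap_apply, ← tens_dl] using h i u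

theorem adjoint_ampl (a : V I ℝ →L[ℝ] V J ℝ) : adjoint (ampl H a) = ampl H (adjoint a) := by
  refine tens_ext fun j u => ext_inner_right ℝ fun ξ => ?_
  rw [adjoint_inner_left, ampl_tens, inner_tens, inner_tens, ev_ampl, adjoint_inner_left]

end Pool.Agent.Lib.TP
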